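import Pool.Agent.Helper99_Eng3.Stmts

/-! Module OPTS of squad ENG 3: totally singular irreducible subspaces. -/

set_option autoImplicit false

namespace Pool.Agent.Eng.H14

open Pool.Agent.Eng

/-- The arithmetic of the periods. -/
theorem period_dvd {K : Type} [Field K] {p k d r r' : ℕ} (hp : p.Prime) (hp2 : p ≠ 2) (hk : 1 ≤ k)
    {τ : K} (hτ : orderOf τ = p ^ k) (h1 : (τ - 1) ^ (r + d) = (τ - 1) ^ r)
    (h2 : (τ⁻¹ - 1) ^ (r' + d) = (τ⁻¹ - 1) ^ r') : p ^ k ∣ d := by
  have hτ1 : τ ≠ 1 := by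
    rintro rfl
    rw [orderOf_one] at hτ
    have : 1 < p ^ k := Nat.one_lt_pow (by omega) hp.one_lt
    omega
  have hτ0 : τ ≠ 0 := by
    rintro rfl
    have h := pow_orderOf_eq_one (0 : K)
    rw [hτ, zero_pow (pow_ne_zero _ hp.ne_zero)] at h
    exact zero_ne_one h
  have e1 : (τ - 1) ^ d = 1 := by
    rw [pow_add] at h1
    have hne : (τ - 1) ^ r ≠ 0 := pow_ne_zero _ (sub_ne_zero.2 hτ1)
    exact mul_left_cancel₀ hne (by rw [h1, mul_one])
  have e2 : (τ⁻¹ - 1) ^ d = 1 := by
    rw [pow_add] at h2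
    have hne : (τ⁻¹ - 1) ^ r' ≠ 0 := by
      exact pow_ne_zero _ (sub_ne_zero.2 fun h => hτ1 (inv_eq_one.1 h))
    exact mul_left_cancel₀ hne (by rw [h2, mul_one])
  have e3 : τ⁻¹ - 1 = -(τ⁻¹ * (τ - 1)) := by
    field_simp
    ring
  rw [e3, neg_pow, mul_pow, e1, mul_one] at e2
  have e4 : τ ^ (2 * d) = 1 := by
    have e5 : ((-1) ^ d * τ⁻¹ ^ d) ^ 2 = (1 : K) := by rw [e2, one_pow]
    rw [mul_pow, ← pow_mul, ← pow_mul, mul_comm d 2, pow_mul (-1 : K) 2 d, neg_one_sq, one_pow,
      one_mul, inv_pow, inv_eq_one] at e5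
    exact e5
  have e5 : p ^ k ∣ 2 * d := by
    rw [← hτ]
    exact orderOf_dvd_of_pow_eq_one e4
  have hcop : Nat.Coprime (p ^ k) 2 := by
    apply Nat.Coprime.pow_left
    exact (Nat.coprime_primes hp Nat.prime_two).2 hp2
  exact hcop.dvd_of_dvd_mul_left e5

/-- A hyperbolic family is injective. -/
theorem hyp_inj {F V K : Type} [Field F] [Finite F] [AddCommGroup V] [Module F V] [Field K]
    [Algebra F K] [FiniteDimensional F K] (Q : QuadraticForm F V) (ι : (K × K) →ₗ[F] V)
    (hι : ∀ a b : K, Q (ι (a, b)) = Algebra.trace F K (a * b)) : Function.Injective ι := by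
  rw [injective_iff_map_eq_zero]
  rintro ⟨a, b⟩ h0
  have h1 : ∀ a' b' : K, Algebra.trace F K (a * b' + a' * b) = 0 := by
    intro a' b'
    have h2 : Q (ι ((a, b) + (a', b'))) = Q (ι (a', b')) := by rw [map_add, h0, zero_add]
    rw [Prod.mk_add_mk, hι, hι] at h2
    have h3 : Q (ι (a, b)) = 0 := by rw [h0, QuadraticMap.map_zero]
    rw [hι] at h3
    have h4 : (a + a') * (b + b') = a * b + (a * b' + a' * b) + a' * b' := by ring
    rw [h4, map_add, map_add, h3, zero_add] at h2
    simpa using h2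
  have hnd := traceForm_nondegenerate F K
  have ha : a = 0 := by
    apply hnd.1 a
    intro b'
    have := h1 0 b'
    simpa [Algebra.traceForm_apply] using this
  have hb : b = 0 := by
    apply hnd.1 b
    intro a'
    have := h1 a' 0
    rw [mul_zero, zero_add, mul_comm] at this
    simpa [Algebra.traceForm_apply] using this
  rw [ha, hb]
  rfl

/-- OPTS: totally singular irreducible subspaces. -/
theorem opts (hOHYP : OhypStmt) (hOPAR : OparStmt) (hOLAM : OlamStmt) : OptsStmt := by
  intro F V K _ _ _ _ _ _ _ _ Q W lam p k hQ hN hW hW0 hadj hp hp2 hk hlam d hd hlaw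
  obtain ⟨ι, hι⟩ := hOHYP F V K Q W hQ hW hW0
  have hle : 2 * Module.finrank F K ≤ Module.finrank F V := by
    have h := LinearMap.finrank_le_finrank_of_injective (hyp_inj Q ι hι)
    rw [Module.finrank_prod] at h
    omega
  have hpk : Odd (p ^ k) := (hp.odd_of_ne_two hp2).pow
  obtain ⟨t, ht⟩ := hpk
  have hlam0 : lam ≠ 0 := by
    rintro rfl
    have h := pow_orderOf_eq_one (0 : K)
    rw [hlam, zero_pow (pow_ne_zero _ hp.ne_zero)] at h
    exact zero_ne_one h
  set ρ := lam ^ (t + 1) with hρ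
  have hρ0 : ρ ≠ 0 := pow_ne_zero _ hlam0
  have hρ2 : ρ ^ 2 = lam := by
    rw [hρ, ← pow_mul]
    have : (t + 1) * 2 = p ^ k + 1 := by omega
    rw [this, pow_succ, ← hlam, pow_orderOf_eq_one, one_mul]
  rcases lt_or_eq_of_le hle with hlt | heq
  · obtain ⟨r, hr⟩ := hOPAR F V K Q ι hQ hι hlt ρ hρ0 d hlaw
    obtain ⟨r', hr'⟩ := hOPAR F V K Q ι hQ hι hlt ρ⁻¹ (inv_ne_zero hρ0) d hlaw
    rw [hρ2] at hr
    rw [inv_pow, hρ2] at hr'
    exact period_dvd hp hp2 hk hlam hr hr'
  · -- the general step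
    have key : ∀ i : ℕ, 0 < i → i < Module.finrank F K → 2 * i ≠ Module.finrank F K →
        ¬ p ∣ 1 + Nat.card F ^ i → p ^ k ∣ d := by
      intro i hi hie hi2 hpi
      obtain ⟨r, hr⟩ := hOLAM F V K Q ι hι i hi hie hi2 ρ hρ0 d hlaw
      obtain ⟨r', hr'⟩ := hOLAM F V K Q ι hι i hi hie hi2 ρ⁻¹ (inv_ne_zero hρ0) d hlaw
      rw [pow_mul, hρ2] at hr
      rw [pow_mul, inv_pow, hρ2, inv_pow] at hr'
      refine period_dvd hp hp2 hk (τ := lam ^ (1 + Nat.card F ^ i)) ?_ hr hr'
      rw [orderOf_pow' _ (by omega), hlam]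
      have : Nat.gcd (p ^ k) (1 + Nat.card F ^ i) = 1 :=
        Nat.Coprime.pow_left _ ((Nat.Prime.coprime_iff_not_dvd hp).2 hpi)
      rw [this, Nat.div_one]
    by_cases h1 : p ∣ 1 + Nat.card F ^ 1
    · -- p divides q + 1
      have h2 : ¬ p ∣ 1 + Nat.card F ^ 2 := by
        intro h2
        have h3 : (p : ℤ) ∣ 1 + (Nat.card F : ℤ) := by
          have := Int.natCast_dvd_natCast.2 h1
          simpa using this
        have h4 : (p : ℤ) ∣ 1 + (Nat.card F : ℤ) ^ 2 := by
          have := Int.natCast_dvd_natCast.2 h2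
          simpa using this
        have h5 : (p : ℤ) ∣ 2 := by
          have : (2 : ℤ) = (1 + (Nat.card F : ℤ) ^ 2) -
              ((Nat.card F : ℤ) - 1) * (1 + (Nat.card F : ℤ)) := by ring
          rw [this]
          exact dvd_sub h4 (h3.mul_left _)
        have h6 : p ∣ 2 := by exact_mod_cast h5
        exact hp2 ((Nat.prime_dvd_prime_iff_eq hp Nat.prime_two).1 h6)
      refine key 2 (by omega) (by omega) ?_ h2
      intro h4
      -- here `finrank = 4`
      have hFK : Finite K := Module.finite_of_finite F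
      have hfF : Fintype F := Fintype.ofFinite F
      have hfK : Fintype K := Fintype.ofFinite K
      have hcard : Fintype.card K = Fintype.card F ^ 4 := by
        rw [Module.card_eq_pow_finrank (K := F) (V := K), ← h4]
      have hNc : Nat.card F = Fintype.card F := Nat.card_eq_fintype_card
      have e1 : p ^ k ∣ Fintype.card F ^ 4 - 1 := by
        rw [← hlam, ← hcard]
        exact orderOf_dvd_of_pow_eq_one (FiniteField.pow_card_sub_one_eq_one lam hlam0)
      have e2 : Fintype.card F ^ 4 - 1 = (1 + Fintype.card F ^ 2) * (Fintype.card F ^ 2 - 1) := by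
        have h1 : 1 ≤ Fintype.card F ^ 2 := Nat.one_le_pow _ _ Fintype.card_pos
        obtain ⟨u, hu⟩ := Nat.exists_eq_add_of_le h1
        have : Fintype.card F ^ 4 = (Fintype.card F ^ 2) ^ 2 := by ring
        rw [this, hu]
        have : (1 + u) ^ 2 - 1 = (1 + (1 + u)) * u := by
          have : (1 + u) ^ 2 = (1 + (1 + u)) * u + 1 := by ring
          omega
        rw [this]
        congr 1
        omega
      rw [e2] at e1
      rw [hNc] at h2
      have e3 : p ^ k ∣ Fintype.card F ^ 2 - 1 :=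
        (Nat.Coprime.pow_left _ ((Nat.Prime.coprime_iff_not_dvd hp).2 h2)).dvd_of_dvd_mul_left e1
      have e4 : lam ^ (Fintype.card F ^ 2) = lam := by
        have h1 : 1 ≤ Fintype.card F ^ 2 := Nat.one_le_pow _ _ Fintype.card_pos
        have : Fintype.card F ^ 2 = (Fintype.card F ^ 2 - 1) + 1 := by omega
        rw [this, pow_succ]
        rw [← hlam] at e3
        rw [orderOf_dvd_iff_pow_eq_one.1 e3, one_mul]
      have e5 : (FiniteField.frobeniusAlgHom F K) ^ 2 = 1 := by
        apply AlgHom.ext_of_adjoin_eq_top hadj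
        intro x hx
        rw [Set.mem_singleton_iff] at hx
        subst hx
        rw [AlgHom.coe_pow]
        simp only [Function.iterate_succ, Function.iterate_zero, Function.comp_apply, id_eq,
          AlgHom.one_apply, FiniteField.frobeniusAlgHom_apply]
        rw [← pow_mul, ← sq]
        exact e4
      have e6 := orderOf_dvd_of_pow_eq_one e5
      rw [FiniteField.orderOf_frobeniusAlgHom, ← h4] at e6
      omega
    · exact key 1 (by omega) (by omega) (by omega) h1

end Pool.Agent.Eng.H14
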