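import Pool.Agent.Helper99_Eng3.Stmts

/-! Module OTF of squad ENG 3: hyperbolic pairs and a plane of given type inside a space over a
finite field of characteristic 2. -/

set_option autoImplicit false

namespace Pool.Agent.Eng.H14

open Pool.Agent.Eng

section

variable {F V : Type} [Field F] [AddCommGroup V] [Module F V]

/-- The polar form on a hyperbolic family. -/
theorem hyp_polar (Q : QuadraticForm F V) {e : ℕ}
    (ι : ((Fin e → F) × (Fin e → F)) →ₗ[F] V) (hι : ∀ a b, Q (ι (a, b)) = ∑ i, a i * b i)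
    (a b a' b' : Fin e → F) :
    QuadraticMap.polar Q (ι (a, b)) (ι (a', b')) = ∑ i, (a i * b' i + a' i * b i) := by
  unfold QuadraticMap.polar
  rw [← map_add, Prod.mk_add_mk, hι, hι, hι, ← Finset.sum_sub_distrib, ← Finset.sum_sub_distrib]
  refine Finset.sum_congr rfl fun i _ => ?_
  simp only [Pi.add_apply]
  ring

/-- The polar form with a fixed vector in coordinates. -/
theorem hyp_coord (Q : QuadraticForm F V) {e : ℕ}
    (ι : ((Fin e → F) × (Fin e → F)) →ₗ[F] V) (v : V) (a b : Fin e → F) :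
    QuadraticMap.polar Q v (ι (a, b)) =
      ∑ i, (a i * QuadraticMap.polar Q v (ι (Pi.single i 1, 0)) +
        b i * QuadraticMap.polar Q v (ι (0, Pi.single i 1))) := by
  have h1 : (a, b) = (∑ i, a i • ((Pi.single i 1, 0) : (Fin e → F) × (Fin e → F))) +
      ∑ i, b i • ((0, Pi.single i 1) : (Fin e → F) × (Fin e → F)) := by
    ext j
    · simp [Prod.fst_sum, Finset.sum_apply, Pi.single_apply]
    · simp [Prod.snd_sum, Finset.sum_apply, Pi.single_apply]
  have h2 : QuadraticMap.polar Q v (ι (a, b)) = (QuadraticMap.polarBilin Q v) (ι (a, b)) := rfl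
  rw [h2, h1, map_add, map_add, map_sum, map_sum, map_sum, map_sum, ← Finset.sum_add_distrib]
  refine Finset.sum_congr rfl fun i _ => ?_
  rw [map_smul, map_smul, map_smul, map_smul, smul_eq_mul, smul_eq_mul]
  rfl

/-- Every vector is the sum of a vector of the hyperbolic family and of an orthogonal vector. -/
theorem hyp_split (Q : QuadraticForm F V) {e : ℕ}
    (ι : ((Fin e → F) × (Fin e → F)) →ₗ[F] V) (hι : ∀ a b, Q (ι (a, b)) = ∑ i, a i * b i)
    (v : V) : ∃ a b : Fin e → F, ∀ a' b' : Fin e → F,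
      QuadraticMap.polar Q (v - ι (a, b)) (ι (a', b')) = 0 := by
  refine ⟨fun i => QuadraticMap.polar Q v (ι (0, Pi.single i 1)),
    fun i => QuadraticMap.polar Q v (ι (Pi.single i 1, 0)), fun a' b' => ?_⟩
  rw [QuadraticMap.polar_sub_left, hyp_polar Q ι hι, hyp_coord Q ι v a' b', sub_eq_zero]
  refine Finset.sum_congr rfl fun i _ => ?_
  ring

/-- A vector of norm `1` orthogonal to a hyperbolic family that is not everything
(characteristic 2). -/
theorem hyp_one [Finite F] [FiniteDimensional F V] (Q : QuadraticForm F V) (hQ : ND Q)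
    (h2 : (2 : F) = 0) {e : ℕ} (ι : ((Fin e → F) × (Fin e → F)) →ₗ[F] V)
    (hι : ∀ a b, Q (ι (a, b)) = ∑ i, a i * b i) (he : 2 * e < Module.finrank F V) :
    ∃ z : V, Q z = 1 ∧ ∀ a b : Fin e → F, QuadraticMap.polar Q z (ι (a, b)) = 0 := by
  -- a nonzero vector orthogonal to the family
  obtain ⟨x, hx0, hx⟩ : ∃ x : V, x ≠ 0 ∧ ∀ a b : Fin e → F,
      QuadraticMap.polar Q x (ι (a, b)) = 0 := by
    have hr : LinearMap.range ι ≠ ⊤ := by
      intro htop
      have h1 : Module.finrank F (LinearMap.range ι) ≤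
          Module.finrank F ((Fin e → F) × (Fin e → F)) := LinearMap.finrank_range_le ι
      rw [htop, finrank_top, Module.finrank_prod, Module.finrank_fin_fun] at h1
      omega
    obtain ⟨v, -, hv⟩ := SetLike.exists_of_lt (lt_top_iff_ne_top.2 hr)
    obtain ⟨a, b, hab⟩ := hyp_split Q ι hι v
    refine ⟨v - ι (a, b), ?_, hab⟩
    intro h0
    apply hv
    rw [sub_eq_zero] at h0
    rw [h0]
    exact LinearMap.mem_range_self ι _
  -- a second one, not orthogonal to the first one
  obtain ⟨y, hxy, hy⟩ : ∃ y : V, QuadraticMap.polar Q x y ≠ 0 ∧ ∀ a b : Fin e → F,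
      QuadraticMap.polar Q y (ι (a, b)) = 0 := by
    obtain ⟨v, hv⟩ : ∃ v, QuadraticMap.polar Q x v ≠ 0 := by
      by_contra hcon
      push Not at hcon
      exact hx0 (hQ x hcon)
    obtain ⟨a, b, hab⟩ := hyp_split Q ι hι v
    refine ⟨v - ι (a, b), ?_, hab⟩
    rw [QuadraticMap.polar_sub_right, hx, sub_zero]
    exact hv
  obtain ⟨w, hw0, hw⟩ : ∃ w : V, Q w ≠ 0 ∧ ∀ a b : Fin e → F,
      QuadraticMap.polar Q w (ι (a, b)) = 0 := by
    by_cases h1 : Q x = 0
    · by_cases h3 : Q y = 0
      · refine ⟨x + y, ?_, fun a b => ?_⟩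
        · rw [QuadraticMap.map_add Q, h1, h3, zero_add, zero_add]
          exact hxy
        · rw [QuadraticMap.polar_add_left, hx, hy, zero_add]
      · exact ⟨y, h3, hy⟩
    · exact ⟨x, h1, hx⟩
  have : Fintype F := Fintype.ofFinite F
  have hchar : ringChar F = 2 := by
    have h3 : ringChar F ∣ 2 := ringChar.dvd (by exact_mod_cast h2)
    rcases (Nat.dvd_prime Nat.prime_two).1 h3 with h | h
    · exact absurd h (CharP.ringChar_ne_one)
    · exact h
  obtain ⟨r, hr⟩ := FiniteField.isSquare_of_char_two hchar (Q w)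
  have hr0 : r ≠ 0 := by
    rintro rfl
    apply hw0
    rw [hr, mul_zero]
  refine ⟨r⁻¹ • w, ?_, fun a b => ?_⟩
  · rw [QuadraticMap.map_smul, hr, smul_eq_mul]
    field_simp
  · rw [QuadraticMap.polar_smul_left, hw, smul_zero]

end

/-- OTF: the standard form `Σ a_i b_i + s t + c (s² + t²)`, `c = 0, 1`, inside every larger
nondegenerate space over a finite field of characteristic 2. -/
theorem otf (hOHYD : OhydStmt) (hOHYB : OhybStmt) : OtfStmt := by
  intro F V _ _ _ _ _ Q n c hQ h2 hc hn
  obtain ⟨W, hW, hW0⟩ := hOHYD F V Q (n + 1) hQ (by omega)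
  obtain ⟨ι, hι⟩ := hOHYB F V Q (n + 1) W hQ hW hW0
  rcases hc with hc | hc
  · -- c = 0
    let L : ((Fin n → F) × (Fin n → F) × F × F) →ₗ[F] ((Fin (n + 1) → F) × (Fin (n + 1) → F)) :=
      { toFun := fun x => (Fin.snoc x.1 x.2.2.1, Fin.snoc x.2.1 x.2.2.2)
        map_add' := by
          rintro ⟨a, b, s, t⟩ ⟨a', b', s', t'⟩
          ext j
          · refine Fin.lastCases ?_ (fun i => ?_) j <;> simp
          · refine Fin.lastCases ?_ (fun i => ?_) j <;> simp
        map_smul' := by
          rintro r ⟨a, b, s, t⟩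
          ext j
          · refine Fin.lastCases ?_ (fun i => ?_) j <;> simp
          · refine Fin.lastCases ?_ (fun i => ?_) j <;> simp }
    refine ⟨ι.comp L, fun a b s t => ?_⟩
    have e : (ι.comp L) (a, b, s, t) = ι (Fin.snoc a s, Fin.snoc b t) := rfl
    rw [e, hι, Fin.sum_univ_castSucc, hc]
    simp
  · -- c = 1
    obtain ⟨z, hz, hzo⟩ := hyp_one Q hQ h2 ι hι (by omega)
    let L : ((Fin n → F) × (Fin n → F) × F × F) →ₗ[F] ((Fin (n + 1) → F) × (Fin (n + 1) → F)) :=
      { toFun := fun x => (Fin.snoc x.1 x.2.2.1, Fin.snoc x.2.1 (x.2.2.1 + x.2.2.2))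
        map_add' := by
          rintro ⟨a, b, s, t⟩ ⟨a', b', s', t'⟩
          ext j
          · refine Fin.lastCases ?_ (fun i => ?_) j <;> simp
          · refine Fin.lastCases ?_ (fun i => ?_) j
            · simp; ring
            · simp
        map_smul' := by
          rintro r ⟨a, b, s, t⟩
          ext j
          · refine Fin.lastCases ?_ (fun i => ?_) j <;> simp
          · refine Fin.lastCases ?_ (fun i => ?_) j
            · simp; ring
            · simp }
    let M : ((Fin n → F) × (Fin n → F) × F × F) →ₗ[F] V :=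
      { toFun := fun x => x.2.2.2 • z
        map_add' := by
          intro x y
          simp [add_smul]
        map_smul' := by
          intro r x
          simp [mul_smul] }
    refine ⟨ι.comp L + M, fun a b s t => ?_⟩
    have e : (ι.comp L + M) (a, b, s, t) = t • z + ι (Fin.snoc a s, Fin.snoc b (s + t)) := by
      rw [add_comm]
      rfl
    rw [e, QuadraticMap.map_add Q, QuadraticMap.polar_smul_left, hzo, hι, Fin.sum_univ_castSucc,
      QuadraticMap.map_smul, hz, hc]
    simp only [Fin.snoc_castSucc, Fin.snoc_last, smul_eq_mul, mul_one, mul_zero]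
    ring

end Pool.Agent.Eng.H14
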